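import Pool.Agent.helper51.VR.Spec

set_option autoImplicit false

namespace Pool.Agent.VR

open Pool.Agent.RB NumberField IsDedekindDomain Module
open scoped nonZeroDivisors Real Classical IsMulCommutative

/-- the rows `g_k` and `m e_l` -/
def DTX_row {R : Type} [CommRing R] {r N : ℕ} (m : R) (g : Fin N → Fin (r + 1) → R) (κ : Fin N ⊕ Fin (r + 1))
    (j : Fin (r + 1)) : R :=
  Sum.elim (fun k => g k j) (fun l => if l = j then m else 0) κ

theorem DTX_mem {R : Type} [CommRing R] {r N : ℕ} (hN : N ≤ r) (m : R) (g : Fin N → Fin (r + 1) → R) (I : Ideal R)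
    (h : ∀ (j₀ : Fin (r + 1)) (ρ : Fin r → Fin N ⊕ Fin (r + 1)), m * Matrix.det (fun i j : Fin r =>
      Sum.elim (fun k => g k (j₀.succAbove j)) (fun l => if l = j₀.succAbove j then m else 0) (ρ i)) ∈ I)
    (s : Fin (r + 1) → Fin N ⊕ Fin (r + 1)) : Matrix.det (fun i j => DTX_row m g (s i) j) ∈ I := by
  by_cases hs : ∃ i₀ l, s i₀ = Sum.inr l
  · obtain ⟨i₀, l, hl⟩ := hs
    rw [Matrix.det_succ_row _ i₀, Finset.sum_eq_single l]
    · have e1 : DTX_row m g (s i₀) l = m := by
        rw [hl]
        show (if l = l then m else 0) = m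
        rw [if_pos rfl]
      have e2 := h l (fun i => s (i₀.succAbove i))
      have e3 : (-1 : R) ^ ((i₀ : ℕ) + (l : ℕ)) * DTX_row m g (s i₀) l *
          Matrix.det (Matrix.submatrix (fun i j => DTX_row m g (s i) j) i₀.succAbove l.succAbove) =
          (-1 : R) ^ ((i₀ : ℕ) + (l : ℕ)) * (m * Matrix.det (fun i j : Fin r =>
            Sum.elim (fun k => g k (l.succAbove j)) (fun l' => if l' = l.succAbove j then m else 0)
              (s (i₀.succAbove i)))) := by
        rw [e1, mul_assoc]
        rfl
      show (-1 : R) ^ ((i₀ : ℕ) + (l : ℕ)) * DTX_row m g (s i₀) l *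
          Matrix.det (Matrix.submatrix (fun i j => DTX_row m g (s i) j) i₀.succAbove l.succAbove) ∈ I
      rw [e3]
      exact I.mul_mem_left _ e2
    · intro j _ hj
      have e1 : DTX_row m g (s i₀) j = 0 := by
        rw [hl]
        show (if l = j then m else 0) = 0
        rw [if_neg (fun h => hj h.symm)]
      show (-1 : R) ^ ((i₀ : ℕ) + (j : ℕ)) * DTX_row m g (s i₀) j * _ = 0
      rw [e1, mul_zero, zero_mul]
    · intro hl'
      exact absurd (Finset.mem_univ l) hl'
  · have hs' : ∀ i, ∃ k, s i = Sum.inl k := by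
      intro i
      cases hi : s i with
      | inl k => exact ⟨k, rfl⟩
      | inr l => exact absurd ⟨i, l, hi⟩ hs
    choose k hk using hs'
    obtain ⟨i, j, hij, hkk⟩ := Fintype.exists_ne_map_eq_of_card_lt k (by
      rw [Fintype.card_fin, Fintype.card_fin]
      omega)
    have e : Matrix.det (fun i j => DTX_row m g (s i) j) = 0 := by
      refine Matrix.det_zero_of_row_eq hij ?_
      funext x
      show DTX_row m g (s i) x = DTX_row m g (s j) x
      rw [hk i, hk j, hkk]
    rw [e]
    exact I.zero_mem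

theorem DTX : DTX_stmt := by
  intro R _ r N hN m g A a b hA I h
  have e : A = fun i => ∑ κ : Fin N ⊕ Fin (r + 1), (Sum.elim (a i) (b i) κ) • (DTX_row m g κ) := by
    funext i j
    rw [hA i j, Finset.sum_apply, Fintype.sum_sum_type]
    have e1 : ∑ l : Fin (r + 1), (Sum.elim (a i) (b i) (Sum.inr l) • DTX_row m g (Sum.inr l)) j = b i j * m := by
      rw [Finset.sum_eq_single j]
      · show b i j * (if j = j then m else 0) = b i j * m
        rw [if_pos rfl]
      · intro l _ hl
        show b i l * (if l = j then m else 0) = 0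
        rw [if_neg hl, mul_zero]
      · intro hj
        exact absurd (Finset.mem_univ j) hj
    rw [e1]
    rfl
  have e2 : Matrix.det A = ∑ s : Fin (r + 1) → Fin N ⊕ Fin (r + 1), (∏ i, Sum.elim (a i) (b i) (s i)) *
      Matrix.det (fun i j => DTX_row m g (s i) j) := by
    rw [e]
    have e3 := (Matrix.detRowAlternating (n := Fin (r + 1)) (R := R)).toMultilinearMap.map_sum
      (fun (i : Fin (r + 1)) (κ : Fin N ⊕ Fin (r + 1)) => (Sum.elim (a i) (b i) κ) • (DTX_row m g κ))
    refine e3.trans (Finset.sum_congr rfl fun s _ => ?_)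
    exact (Matrix.detRowAlternating (n := Fin (r + 1)) (R := R)).toMultilinearMap.map_smul_univ
      (fun i => Sum.elim (a i) (b i) (s i)) (fun i => DTX_row m g (s i))
  rw [e2]
  exact I.sum_mem fun s _ => I.mul_mem_left _ (DTX_mem hN m g I h s)

end Pool.Agent.VR
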